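import Mathlib
import Pool.Agent.Helper56.PS.Data10

set_option autoImplicit false

/-!
There is a partial spread function of minus type in ten variables which is not normal.
-/

namespace Pool.Agent.Results.MP_17ab9e_co.NonNormal

open Pool.Agent.Helper56.PS

/-- A function in ten variables in the class of partial spread functions of minus type which
is constant on no flat of dimension five. -/
theorem result : ∃ f : (Fin (2 * 5) → ZMod 2) → ZMod 2, IsPSMinus 5 f ∧ ¬ IsNormal 5 f :=
  ⟨bf (2 * 5) F10, psCheck_spec 5 F10 gens10 ps10,
    not_normal 5 F10 G10 (by norm_num) compl10 F10_all G10_all⟩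

end Pool.Agent.Results.MP_17ab9e_co.NonNormal
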