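import Mathlib
import Pool.Agent.Helper56.PS.Orb0
import Pool.Agent.Helper56.PS.Orb1
import Pool.Agent.Helper56.PS.Orb2
import Pool.Agent.Helper56.PS.Orb3
import Pool.Agent.Helper56.PS.Orb4
import Pool.Agent.Helper56.PS.Orb5
import Pool.Agent.Helper56.PS.Orb6

set_option autoImplicit false

/-!
There is a partial spread function of minus type in twelve variables which is not weakly
normal.
-/

namespace Pool.Agent.Results.MP_17ab9e_co.NotWeaklyNormal

open Pool.Agent.Helper56.PS
open Pool.Agent.Helper56.PT

theorem not_weak : ¬ IsWeaklyNormal 6 (bf (2 * 6) F12) := by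
  intro h
  obtain ⟨U, D, hV⟩ := weak_flat F12 G12 X12 compl12 graph12 h
  have a0 : All A0 U := fun u hu _ => first12 u (hV.lt u hu)
  have a1 : All A1 U := all_next cs12 ds12 X12 As12 sym12 sym12' tab12 A0 A1 17 4
    (by simp [As12]) orb12_0 (by decide) (by decide) o0 hi12_0 U D hV a0
  have a2 : All A2 U := all_next cs12 ds12 X12 As12 sym12 sym12' tab12 A1 A2 20 4
    (by simp [As12]) orb12_1 (by decide) (by decide) o1 hi12_1 U D hV a1
  have a3 : All A3 U := all_next cs12 ds12 X12 As12 sym12 sym12' tab12 A2 A3 21 4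
    (by simp [As12]) orb12_2 (by decide) (by decide) o2 hi12_2 U D hV a2
  have a4 : All A4 U := all_next cs12 ds12 X12 As12 sym12 sym12' tab12 A3 A4 22 4
    (by simp [As12]) orb12_3 (by decide) (by decide) o3 hi12_3 U D hV a3
  have a5 : All A5 U := all_next cs12 ds12 X12 As12 sym12 sym12' tab12 A4 A5 23 4
    (by simp [As12]) orb12_4 (by decide) (by decide) o4 hi12_4 U D hV a4
  have a6 : All A6 U := all_next cs12 ds12 X12 As12 sym12 sym12' tab12 A5 A6 1 0
    (by simp [As12]) orb12_5 (by decide) (by decide) o5 hi12_5 U D hV a5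
  have a7 : All A7 U := all_next cs12 ds12 X12 As12 sym12 sym12' tab12 A6 A7 16 4
    (by simp [As12]) orb12_6 (by decide) (by decide) o6 hi12_6 U D hV a6
  exact no_flat_of_last X12 A7 last12 U D hV a7

/-- A function in twelve variables in the class of partial spread functions of minus type
which is affine on no flat of dimension six. -/
theorem result : ∃ f : (Fin (2 * 6) → ZMod 2) → ZMod 2, IsPSMinus 6 f ∧ ¬ IsWeaklyNormal 6 f :=
  ⟨bf (2 * 6) F12, psCheck_spec 6 F12 gens12 ps12, not_weak⟩

end Pool.Agent.Results.MP_17ab9e_co.NotWeaklyNormal
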